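import Mathlib

/-!
# Definitions: components of common zero sets of two multi-affine polynomials
-/

namespace Pool.Agent.Lib.MP_12b847_ag

open MvPolynomial

universe u

section Defs

variable {R : Type u} [Field R] [LinearOrder R] {n : ℕ}

/-- Semi-algebraic subsets of `R^n`: the smallest family of subsets of `R^n` that contains all
sets `{x | P(x) > 0}`, `P` a polynomial, and is closed under complements and binary unions. -/
inductive IsSemialgebraic : Set (Fin n → R) → Prop
  | pos (P : MvPolynomial (Fin n) R) : IsSemialgebraic {x | 0 < eval x P}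
  | compl {A : Set (Fin n → R)} : IsSemialgebraic A → IsSemialgebraic Aᶜ
  | union {A B : Set (Fin n → R)} :
      IsSemialgebraic A → IsSemialgebraic B → IsSemialgebraic (A ∪ B)

/-- A polynomial is multi-affine if its degree in each variable is at most `1`. -/
def IsMultiAffine (P : MvPolynomial (Fin n) R) : Prop := ∀ i, P.degreeOf i ≤ 1

/-- The common zero set in `R^n` of two polynomials. -/
def Z (P Q : MvPolynomial (Fin n) R) : Set (Fin n → R) := {x | eval x P = 0 ∧ eval x Q = 0}

variable [TopologicalSpace R]

/-- A set `S ⊆ R^n` is semi-algebraically connected if it is semi-algebraic and is not the union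
of two disjoint nonempty semi-algebraic sets that are closed in `S`. -/
def SAConnected (S : Set (Fin n → R)) : Prop :=
  IsSemialgebraic S ∧
    ∀ A B : Set (Fin n → R), IsSemialgebraic A → IsSemialgebraic B →
      (∃ F, IsClosed F ∧ A = S ∩ F) → (∃ F, IsClosed F ∧ B = S ∩ F) →
        A ∪ B = S → Disjoint A B → A = ∅ ∨ B = ∅

/-- The semi-algebraically connected component of `x` in `V`: the union of all
semi-algebraically connected subsets of `V` that contain `x`. -/
def component (V : Set (Fin n → R)) (x : Fin n → R) : Set (Fin n → R) :=
  ⋃₀ {C | C ⊆ V ∧ SAConnected C ∧ x ∈ C}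

/-- The number of semi-algebraically connected components of `V`. -/
noncomputable def b0 (V : Set (Fin n → R)) : ℕ∞ := {C | ∃ x ∈ V, C = component V x}.encard

variable (R) in
/-- `N2 R d n` is the supremum of `b0 (Z P Q)` over all pairs of multi-affine polynomials `P, Q`
in `n` variables of total degree at most `d`. -/
noncomputable def N2 (d n : ℕ) : ℕ∞ :=
  ⨆ (P : MvPolynomial (Fin n) R) (Q : MvPolynomial (Fin n) R)
    (_ : IsMultiAffine P ∧ IsMultiAffine Q ∧ P.totalDegree ≤ d ∧ Q.totalDegree ≤ d), b0 (Z P Q)

end Defs

end Pool.Agent.Lib.MP_12b847_ag
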