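import Pool.Agent.Lib.MP_12b847_ag.Defs

/-!
# Two multi-affine polynomials of degree three: unboundedly many components

The example: `P = e₂`, `Q = 2 e₃ + e₁ - 1` (elementary symmetric polynomials) in `n` variables.
On `Z(P, Q)` put `s = x₁ + ... + xₙ`.  Newton's identities give `∑ xᵢ² = s²` and
`∑ xᵢ³ = s³ + 3 (1 - s) / 2`.  If `s > 0`, then `4 s³ - 27 s + 27 = (2 s - 3)² (s + 3) ≥ 0` gives
`∑ xᵢ³ ≥ (7 / 9) s³`, and since `∑ xᵢ² = s²` exactly one coordinate exceeds `(3 / 4) s`.
So `Z(P, Q)` is the disjoint union of `n + 1` relatively open semi-algebraic subsets, and each of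
the `n` standard basis vectors lies in its own one.
-/

namespace Pool.Agent.Lib.MP_12b847_ag

open MvPolynomial

universe u

section Proof

variable {R : Type u} [Field R] [LinearOrder R] {n : ℕ}

lemma IsSemialgebraic.inter {A B : Set (Fin n → R)} (hA : IsSemialgebraic A)
    (hB : IsSemialgebraic B) : IsSemialgebraic (A ∩ B) := by
  have := (hA.compl.union hB.compl).compl
  rwa [Set.compl_union, compl_compl, compl_compl] at this

lemma IsSemialgebraic.diff {A B : Set (Fin n → R)} (hA : IsSemialgebraic A)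
    (hB : IsSemialgebraic B) : IsSemialgebraic (A \ B) :=
  hA.inter hB.compl

lemma newton2 (x : Fin n → R) :
    2 * eval x (esymm (Fin n) R 2) = (∑ i, x i) ^ 2 - ∑ i, x i ^ 2 := by
  have h := congrArg (eval x) (mul_esymm_eq_sum (Fin n) R 2)
  have hs : (Finset.HasAntidiagonal.antidiagonal 2).filter (fun a : ℕ × ℕ => a.1 < 2)
      = {(0, 2), (1, 1)} := by
    decide
  rw [hs, Finset.sum_insert (by decide), Finset.sum_singleton] at h
  simp only [esymm_zero, esymm_one, psum, map_mul, map_pow, map_neg, map_one, map_add, map_sum,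
    eval_X, map_natCast, pow_one] at h
  push_cast at h
  linear_combination h

lemma newton3 (x : Fin n → R) :
    3 * eval x (esymm (Fin n) R 3) =
      eval x (esymm (Fin n) R 2) * (∑ i, x i) - (∑ i, x i) * (∑ i, x i ^ 2) + ∑ i, x i ^ 3 := by
  have h := congrArg (eval x) (mul_esymm_eq_sum (Fin n) R 3)
  have hs : (Finset.HasAntidiagonal.antidiagonal 3).filter (fun a : ℕ × ℕ => a.1 < 3)
      = {(0, 3), (1, 2), (2, 1)} := by
    decide
  rw [hs, Finset.sum_insert (by decide), Finset.sum_insert (by decide),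
    Finset.sum_singleton] at h
  simp only [esymm_zero, esymm_one, psum, map_mul, map_pow, map_neg, map_one, map_add, map_sum,
    eval_X, map_natCast, pow_one] at h
  push_cast at h
  linear_combination h

variable (R n) in
/-- The second polynomial `2 e₃ + e₁ - 1`. -/
noncomputable def Q₀ : MvPolynomial (Fin n) R :=
  C 2 * esymm (Fin n) R 3 + esymm (Fin n) R 1 - C 1

lemma mem_Z_iff (x : Fin n → R) : x ∈ Z (esymm (Fin n) R 2) (Q₀ R n) ↔
    eval x (esymm (Fin n) R 2) = 0 ∧ 2 * eval x (esymm (Fin n) R 3) + ∑ i, x i = 1 := by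
  unfold Z Q₀
  simp only [Set.mem_ofPred_eq, esymm_one, map_sub, map_add, map_mul, eval_C, map_sum, eval_X,
    sub_eq_zero]

/-- Degree of the elementary symmetric polynomial in one variable. -/
lemma degreeOf_esymm_le (k : ℕ) (i : Fin n) : (esymm (Fin n) R k).degreeOf i ≤ 1 := by
  unfold esymm
  refine (degreeOf_sum_le _ _ _).trans (Finset.sup_le fun t _ => ?_)
  refine (degreeOf_prod_le _ _ _).trans ?_
  calc ∑ j ∈ t, degreeOf i (X j : MvPolynomial (Fin n) R)
      ≤ ∑ j ∈ t, if i = j then 1 else 0 := by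
        refine Finset.sum_le_sum fun j _ => ?_
        rw [degreeOf_X]
    _ ≤ 1 := by
        rw [Finset.sum_ite_eq]
        split_ifs <;> omega

lemma totalDegree_esymm_le (k : ℕ) : (esymm (Fin n) R k).totalDegree ≤ k := by
  unfold esymm
  refine (totalDegree_finsetSum _ _).trans (Finset.sup_le fun t ht => ?_)
  refine (totalDegree_finsetProd _ _).trans ?_
  rw [Finset.mem_powersetCard] at ht
  calc ∑ j ∈ t, (X j : MvPolynomial (Fin n) R).totalDegree
      = ∑ j ∈ t, 1 := Finset.sum_congr rfl fun j _ => totalDegree_X j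
    _ = k := by simp [ht.2]
    _ ≤ k := le_rfl

lemma isMultiAffine_esymm (k : ℕ) : IsMultiAffine (esymm (Fin n) R k) :=
  fun i => degreeOf_esymm_le k i

lemma isMultiAffine_Q₀ : IsMultiAffine (Q₀ R n) := by
  intro i
  unfold Q₀
  refine (degreeOf_sub_le _ _ _).trans (max_le ((degreeOf_add_le _ _ _).trans (max_le ?_ ?_)) ?_)
  · exact (degreeOf_C_mul_le _ _ _).trans (degreeOf_esymm_le 3 i)
  · exact degreeOf_esymm_le 1 i
  · rw [degreeOf_C]; omega

lemma totalDegree_Q₀ : (Q₀ R n).totalDegree ≤ 3 := by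
  unfold Q₀
  refine (totalDegree_sub _ _).trans (max_le ((totalDegree_add _ _).trans (max_le ?_ ?_)) ?_)
  · refine (totalDegree_mul _ _).trans ?_
    rw [totalDegree_C, zero_add]
    exact totalDegree_esymm_le 3
  · exact (totalDegree_esymm_le 1).trans (by omega)
  · rw [totalDegree_C]; omega

variable [IsStrictOrderedRing R]

lemma sum_sq {x : Fin n → R} (hx : x ∈ Z (esymm (Fin n) R 2) (Q₀ R n)) :
    ∑ i, x i ^ 2 = (∑ i, x i) ^ 2 := by
  rw [mem_Z_iff] at hx
  have := newton2 x
  rw [hx.1] at this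
  linarith

lemma sum_cube {x : Fin n → R} (hx : x ∈ Z (esymm (Fin n) R 2) (Q₀ R n)) :
    2 * ∑ i, x i ^ 3 = 2 * (∑ i, x i) ^ 3 + 3 * (1 - ∑ i, x i) := by
  have h2 := sum_sq hx
  rw [mem_Z_iff] at hx
  have h3 := newton3 x
  rw [hx.1, h2] at h3
  linear_combination -2 * h3 + 3 * hx.2

/-- On the common zero set, the sum of the coordinates does not vanish. -/
lemma sum_ne_zero {x : Fin n → R} (hx : x ∈ Z (esymm (Fin n) R 2) (Q₀ R n)) :
    ∑ i, x i ≠ 0 := by
  intro h0
  have h2 := sum_sq hx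
  rw [h0] at h2
  have h2' : ∑ i, x i ^ 2 = 0 := by rw [h2]; ring
  have hz : ∀ i, x i = 0 := by
    intro i
    have := (Finset.sum_eq_zero_iff_of_nonneg (fun i _ => sq_nonneg (x i))).1 h2' i
      (Finset.mem_univ i)
    exact pow_eq_zero_iff (two_ne_zero) |>.1 this
  have h3 := sum_cube hx
  rw [h0] at h3
  have : ∑ i, x i ^ 3 = 0 := Finset.sum_eq_zero fun i _ => by rw [hz i]; ring
  rw [this] at h3
  norm_num at h3

/-- Some coordinate carries more than three quarters of the sum of all coordinates. -/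
lemma exists_large {x : Fin n → R} (hx : x ∈ Z (esymm (Fin n) R 2) (Q₀ R n))
    (hs : 0 < ∑ i, x i) : ∃ i, 3 * ∑ j, x j < 4 * x i := by
  by_contra hcon
  push Not at hcon
  have h2 := sum_sq hx
  have h3 := sum_cube hx
  set s := ∑ i, x i with hsdef
  have hle : ∑ i, 4 * x i ^ 3 ≤ ∑ i, 3 * s * x i ^ 2 := by
    refine Finset.sum_le_sum fun i _ => ?_
    have := mul_le_mul_of_nonneg_right (hcon i) (sq_nonneg (x i))
    linarith [this, show 4 * x i * x i ^ 2 = 4 * x i ^ 3 by ring]
  rw [← Finset.mul_sum, ← Finset.mul_sum, h2] at hle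
  -- `p₃ = s³ + 3 (1 - s) / 2 ≤ 3 s³ / 4`, while `4 s³ - 27 s + 27 ≥ 0`
  have hkey : 0 ≤ (2 * s - 3) ^ 2 * (s + 3) := by positivity
  have hpos : 0 < s ^ 3 := by positivity
  nlinarith

/-- At most one coordinate carries more than three quarters of the sum of all coordinates. -/
lemma unique_large {x : Fin n → R} (hx : x ∈ Z (esymm (Fin n) R 2) (Q₀ R n))
    (hs : 0 < ∑ i, x i) {i j : Fin n} (hi : 3 * ∑ k, x k < 4 * x i)
    (hj : 3 * ∑ k, x k < 4 * x j) : i = j := by
  by_contra hij
  have h2 := sum_sq hx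
  have hle : x i ^ 2 + x j ^ 2 ≤ ∑ k, x k ^ 2 := by
    have : ∑ k ∈ ({i, j} : Finset (Fin n)), x k ^ 2 ≤ ∑ k, x k ^ 2 :=
      Finset.sum_le_sum_of_subset_of_nonneg (Finset.subset_univ _) fun k _ _ => sq_nonneg _
    rwa [Finset.sum_pair hij] at this
  set s := ∑ i, x i with hsdef
  nlinarith

/-- The linear polynomial whose positivity set is the half-space `{4 x i > 3 (x 1 + ... + x n)}`. -/
noncomputable def H (i : Fin n) : MvPolynomial (Fin n) R := C 4 * X i - C 3 * esymm (Fin n) R 1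

lemma eval_H (i : Fin n) (x : Fin n → R) : eval x (H i) = 4 * x i - 3 * ∑ j, x j := by
  simp [H, esymm_one]

/-- The region `U i` around the `i`-th basis vector. -/
def U (i : Fin n) : Set (Fin n → R) :=
  {x | 0 < eval x (esymm (Fin n) R 1)} ∩ {x | 0 < eval x (H i)}

lemma mem_U {i : Fin n} {x : Fin n → R} :
    x ∈ U i ↔ 0 < ∑ j, x j ∧ 3 * ∑ j, x j < 4 * x i := by
  simp [U, eval_H, esymm_one]

/-- The union of the regions `U j`, `j ≠ i`, and the half-space where the sum is negative. -/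
def W (i : Fin n) : Set (Fin n → R) := {x | ∑ j, x j < 0} ∪ ⋃ j ∈ {j | j ≠ i}, U j

lemma Z_subset (i : Fin n) : Z (esymm (Fin n) R 2) (Q₀ R n) ⊆ U i ∪ W i := by
  intro x hx
  rcases lt_trichotomy (∑ j, x j) 0 with h | h | h
  · exact Or.inr (Or.inl h)
  · exact absurd h (sum_ne_zero hx)
  · obtain ⟨k, hk⟩ := exists_large hx h
    by_cases hki : k = i
    · subst hki
      exact Or.inl (mem_U.2 ⟨h, hk⟩)
    · exact Or.inr (Or.inr (Set.mem_biUnion (show k ∈ {j | j ≠ i} from hki) (mem_U.2 ⟨h, hk⟩)))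

lemma Z_disjoint {i : Fin n} {x : Fin n → R} (hx : x ∈ Z (esymm (Fin n) R 2) (Q₀ R n))
    (hU : x ∈ U i) : x ∉ W i := by
  rw [mem_U] at hU
  rintro (h | h)
  · exact absurd h (not_lt.2 hU.1.le)
  · simp only [Set.mem_ofPred_eq, Set.mem_iUnion, exists_prop] at h
    obtain ⟨j, hj, hxj⟩ := h
    exact hj (unique_large hx hU.1 (mem_U.1 hxj).2 hU.2)

/-- The basis vectors lie in the common zero set. -/
lemma single_mem (i : Fin n) : (Pi.single i 1 : Fin n → R) ∈ Z (esymm (Fin n) R 2) (Q₀ R n) := by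
  have h1 : ∑ j, (Pi.single i 1 : Fin n → R) j = 1 := by simp
  have h2 : ∑ j, (Pi.single i 1 : Fin n → R) j ^ 2 = 1 := by
    rw [Finset.sum_eq_single i]
    · simp
    · intro j _ hj; simp [hj]
    · simp
  have h3 : ∑ j, (Pi.single i 1 : Fin n → R) j ^ 3 = 1 := by
    rw [Finset.sum_eq_single i]
    · simp
    · intro j _ hj; simp [hj]
    · simp
  have n2 := newton2 (Pi.single i 1 : Fin n → R)
  have n3 := newton3 (Pi.single i 1 : Fin n → R)
  rw [h1, h2] at n2
  have e2 : eval (Pi.single i 1 : Fin n → R) (esymm (Fin n) R 2) = 0 := by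
    linarith
  rw [h1, h2, h3, e2] at n3
  rw [mem_Z_iff]
  refine ⟨e2, ?_⟩
  rw [h1]
  linarith

lemma single_mem_U (i : Fin n) : (Pi.single i 1 : Fin n → R) ∈ U i := by
  rw [mem_U]
  have h1 : ∑ j, (Pi.single i 1 : Fin n → R) j = 1 := by simp
  rw [h1]
  simp only [Pi.single_eq_same]
  norm_num

lemma single_notMem_U {i j : Fin n} (h : i ≠ j) : (Pi.single j 1 : Fin n → R) ∉ U i := by
  rw [mem_U]
  have h1 : ∑ k, (Pi.single j 1 : Fin n → R) k = 1 := by simp
  rw [h1]
  simp [h]

section Top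

variable [TopologicalSpace R] [OrderTopology R]

lemma isOpen_U (i : Fin n) : IsOpen (U i : Set (Fin n → R)) := by
  have : (U i : Set (Fin n → R)) = {x | 0 < ∑ j, x j} ∩ {x | 3 * ∑ j, x j < 4 * x i} := by
    ext x; rw [mem_U]; rfl
  rw [this]
  refine IsOpen.inter (isOpen_lt (by fun_prop) (by fun_prop)) (isOpen_lt (by fun_prop) (by fun_prop))

lemma isOpen_W (i : Fin n) : IsOpen (W i : Set (Fin n → R)) := by
  unfold W
  exact IsOpen.union (isOpen_lt (by fun_prop) (by fun_prop))
    (isOpen_biUnion fun j _ => isOpen_U j)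

lemma isSemialgebraic_U (i : Fin n) : IsSemialgebraic (U i : Set (Fin n → R)) :=
  (IsSemialgebraic.pos _).inter (IsSemialgebraic.pos _)

/-- A semi-algebraically connected subset of the zero set contains at most one basis vector. -/
lemma not_both {C : Set (Fin n → R)} (hC : SAConnected C)
    (hsub : C ⊆ Z (esymm (Fin n) R 2) (Q₀ R n)) {i j : Fin n}
    (hi : (Pi.single i 1 : Fin n → R) ∈ C) (hj : (Pi.single j 1 : Fin n → R) ∈ C) : i = j := by
  by_contra hij
  have hWi : C ∩ U i = C ∩ (W i)ᶜ := by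
    ext x
    constructor
    · rintro ⟨hx, hU⟩
      exact ⟨hx, Z_disjoint (hsub hx) hU⟩
    · rintro ⟨hx, hW⟩
      exact ⟨hx, (Z_subset i (hsub hx)).resolve_right hW⟩
  rcases hC.2 (C ∩ U i) (C \ U i) (hC.1.inter (isSemialgebraic_U i))
    (hC.1.diff (isSemialgebraic_U i)) ⟨(W i)ᶜ, (isOpen_W i).isClosed_compl, hWi⟩
    ⟨(U i)ᶜ, (isOpen_U i).isClosed_compl, rfl⟩ (Set.inter_union_sdiff C (U i))
    (Set.disjoint_left.2 fun x hx hx' => hx'.2 hx.2) with h | h
  · have : (Pi.single i 1 : Fin n → R) ∈ C ∩ U i := ⟨hi, single_mem_U i⟩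
    rw [h] at this
    exact this
  · have : (Pi.single j 1 : Fin n → R) ∈ C \ U i := ⟨hj, single_notMem_U hij⟩
    rw [h] at this
    exact this

lemma isSemialgebraic_singleton (v : Fin n → R) : IsSemialgebraic ({v} : Set (Fin n → R)) := by
  have h := (IsSemialgebraic.pos (∑ i, (X i - C (v i)) ^ 2 : MvPolynomial (Fin n) R)).compl
  convert h using 1
  ext x
  simp only [Set.mem_singleton_iff, Set.mem_compl_iff, Set.mem_ofPred_eq, map_sum, map_pow,
    map_sub, eval_X, eval_C, not_lt]
  constructor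
  · rintro rfl
    simp
  · intro hx
    have h0 : ∑ i, (x i - v i) ^ 2 = 0 :=
      le_antisymm hx (Finset.sum_nonneg fun i _ => sq_nonneg _)
    funext i
    have := (Finset.sum_eq_zero_iff_of_nonneg (fun i _ => sq_nonneg (x i - v i))).1 h0 i
      (Finset.mem_univ i)
    exact sub_eq_zero.1 ((pow_eq_zero_iff two_ne_zero).1 this)

lemma saConnected_singleton (v : Fin n → R) : SAConnected ({v} : Set (Fin n → R)) := by
  refine ⟨isSemialgebraic_singleton v, fun A B _ _ _ _ hAB hd => ?_⟩
  by_contra hcon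
  push Not at hcon
  obtain ⟨⟨a, ha⟩, ⟨b, hb⟩⟩ := hcon
  have ha' : a = v := by
    have : a ∈ A ∪ B := Or.inl ha
    rw [hAB] at this; exact this
  have hb' : b = v := by
    have : b ∈ A ∪ B := Or.inr hb
    rw [hAB] at this; exact this
  subst ha'
  subst hb'
  exact Set.disjoint_left.1 hd ha hb

lemma mem_component {V : Set (Fin n → R)} {x : Fin n → R} (hx : x ∈ V) : x ∈ component V x :=
  Set.mem_sUnion.2 ⟨{x}, ⟨Set.singleton_subset_iff.2 hx, saConnected_singleton x, rfl⟩, rfl⟩

lemma component_injective :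
    Function.Injective (fun i : Fin n =>
      component (Z (esymm (Fin n) R 2) (Q₀ R n)) (Pi.single i 1)) := by
  intro i j hij
  have hj : (Pi.single j 1 : Fin n → R) ∈
      component (Z (esymm (Fin n) R 2) (Q₀ R n)) (Pi.single i 1) := by
    have hij' : component (Z (esymm (Fin n) R 2) (Q₀ R n)) (Pi.single i 1) =
      component (Z (esymm (Fin n) R 2) (Q₀ R n)) (Pi.single j 1) := hij
    rw [hij']
    exact mem_component (single_mem j)
  obtain ⟨C, ⟨hsub, hC, hi⟩, hj'⟩ := Set.mem_sUnion.1 hj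
  exact not_both hC hsub hi hj'

lemma le_b0 : (n : ℕ∞) ≤ b0 (Z (esymm (Fin n) R 2) (Q₀ R n)) := by
  calc (n : ℕ∞) = ENat.card (Fin n) := by simp
    _ ≤ (Set.range (fun i : Fin n =>
          component (Z (esymm (Fin n) R 2) (Q₀ R n)) (Pi.single i 1))).encard :=
        (component_injective (R := R) (n := n)).encard_range
    _ ≤ _ := by
        refine Set.encard_le_encard ?_
        rintro _ ⟨i, rfl⟩
        exact ⟨_, single_mem i, rfl⟩

lemma le_N2 {d : ℕ} (hd : 3 ≤ d) : (n : ℕ∞) ≤ N2 R d n := by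
  refine (le_b0 (R := R)).trans ?_
  unfold N2
  exact le_iSup₂_of_le (esymm (Fin n) R 2) (Q₀ R n) (le_iSup_of_le
    ⟨isMultiAffine_esymm 2, isMultiAffine_Q₀, (totalDegree_esymm_le 2).trans (by omega),
      totalDegree_Q₀.trans hd⟩ le_rfl)

/-- Separating points of a subset `V` of a topological space by relatively clopen subsets gives
a lower bound for the number of connected components of `V`. -/
lemma card_connectedComponents_aux {α : Type*} [TopologicalSpace α] {V : Set α} {m : ℕ}
    (p : Fin m → α) (hp : ∀ i, p i ∈ V) (A B : Fin m → Set α) (hA : ∀ i, IsOpen (A i))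
    (hB : ∀ i, IsOpen (B i)) (hcov : ∀ i, V ⊆ A i ∪ B i)
    (hdis : ∀ i, ∀ x ∈ V, x ∈ A i → x ∉ B i) (hself : ∀ i, p i ∈ A i)
    (hne : ∀ i j, i ≠ j → p j ∉ A i) : (m : ℕ∞) ≤ ENat.card (ConnectedComponents V) := by
  have hinj : Function.Injective
      (fun i : Fin m => ((⟨p i, hp i⟩ : V) : ConnectedComponents V)) := by
    intro i j hij
    by_contra hij'
    have hmem : (⟨p i, hp i⟩ : V) ∈ connectedComponent (⟨p j, hp j⟩ : V) :=
      ConnectedComponents.coe_eq_coe'.1 hij
    have hclopen : IsClopen ((Subtype.val : V → α) ⁻¹' A j) := by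
      refine ⟨?_, (hA j).preimage continuous_subtype_val⟩
      have : ((Subtype.val : V → α) ⁻¹' A j) = ((Subtype.val : V → α) ⁻¹' (B j))ᶜ := by
        ext x
        exact ⟨fun h => hdis j x x.2 h, fun h => (hcov j x.2).resolve_right h⟩
      rw [this]
      exact ((hB j).preimage continuous_subtype_val).isClosed_compl
    exact hne j i (Ne.symm hij') (hclopen.connectedComponent_subset (hself j) hmem)
  calc (m : ℕ∞) = ENat.card (Fin m) := by simp
    _ ≤ _ := ENat.card_le_card_of_injective hinj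

/-- The connected components (in the sense of topology) of the basis vectors are distinct. -/
lemma le_card_connectedComponents :
    (n : ℕ∞) ≤ ENat.card (ConnectedComponents (Z (esymm (Fin n) R 2) (Q₀ R n))) :=
  card_connectedComponents_aux (fun i => Pi.single i 1) single_mem U W isOpen_U isOpen_W Z_subset
    (fun _ _ hx hU => Z_disjoint hx hU) single_mem_U (fun _ _ h => single_notMem_U h)

end Top

end Proof

end Pool.Agent.Lib.MP_12b847_ag
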